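import Pool.Agent.Helper75.PM.Stm

/-!
Project PM (helper75), package SI: the averages over shifts.
-/

set_option autoImplicit false

open Filter Topology MeasureTheory

namespace Pool.Agent.Helper45.PM

open Pool.Agent.Helper75.PM

noncomputable section

/-- the majorant of `log (1 + a |ct θ|)` -/
def Hf (a θ : ℝ) : ℝ := Real.log (1 + a) - Real.log (Real.sin (θ / 2))

theorem sin_pos {θ : ℝ} (h : θ ∈ Set.Ioo 0 (2 * Real.pi)) : 0 < Real.sin (θ / 2) :=
  Real.sin_pos_of_pos_of_lt_pi (by linarith [h.1]) (by linarith [h.2])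

theorem Hf_nonneg {a θ : ℝ} (ha : 0 < a) : 0 ≤ Hf a θ := by
  unfold Hf
  have h1 : 0 ≤ Real.log (1 + a) := Real.log_nonneg (by linarith)
  have h2 : Real.log (Real.sin (θ / 2)) ≤ 0 := by
    rw [← Real.log_abs]
    exact Real.log_nonpos (abs_nonneg _) (Real.abs_sin_le_one _)
  linarith

theorem Hf_int (a : ℝ) : IntervalIntegrable (Hf a) volume 0 (2 * Real.pi) := by
  unfold Hf
  refine intervalIntegrable_const.sub ?_
  have h := (intervalIntegrable_log_sin (a := 0) (b := Real.pi)).comp_mul_left (c := 1 / 2)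
  have h1 : (0 : ℝ) / (1 / 2) = 0 := by norm_num
  have h2 : Real.pi / (1 / 2) = 2 * Real.pi := by ring
  rw [h1, h2] at h
  refine h.congr ?_
  intro x _
  change Real.log (Real.sin (1 / 2 * x)) = Real.log (Real.sin (x / 2))
  congr 2
  ring

/-- the case of the end point -/
theorem ct_two_pi : ct (2 * Real.pi) = 0 := by
  unfold ct
  rw [show 2 * Real.pi / 2 = Real.pi by ring, Real.sin_pi, div_zero]

theorem one_add_le {a θ : ℝ} (ha : 0 < a) (h : θ ∈ Set.Ioo 0 (2 * Real.pi)) :
    1 + a * |ct θ| ≤ (1 + a) / Real.sin (θ / 2) := by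
  have hs := sin_pos h
  rw [le_div_iff₀ hs]
  unfold ct
  rw [abs_div, abs_of_pos hs]
  have h1 : (1 + a * (|Real.cos (θ / 2)| / Real.sin (θ / 2))) * Real.sin (θ / 2) =
      Real.sin (θ / 2) + a * |Real.cos (θ / 2)| := by
    field_simp
  rw [h1]
  have h2 := Real.sin_le_one (θ / 2)
  have h3 := mul_le_mul_of_nonneg_left (Real.abs_cos_le_one (θ / 2)) ha.le
  linarith

theorem log_le_Hf {a θ : ℝ} (ha : 0 < a) (h : θ ∈ Set.Ioc 0 (2 * Real.pi)) :
    Real.log (1 + a * |ct θ|) ≤ Hf a θ := by
  rcases eq_or_lt_of_le h.2 with h1 | h1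
  · rw [h1, ct_two_pi, abs_zero, mul_zero, add_zero, Real.log_one]
    exact Hf_nonneg ha
  · have h2 : θ ∈ Set.Ioo 0 (2 * Real.pi) := ⟨h.1, h1⟩
    have hs := sin_pos h2
    have h3 := Real.log_le_log (by positivity) (one_add_le ha h2)
    rw [Real.log_div (by linarith) hs.ne'] at h3
    exact h3

theorem big_Hf {a θ D : ℝ} (ha : 0 < a) (hD : 0 < D) (h : θ ∈ Set.Ioc 0 (2 * Real.pi))
    (hb : D < |a * ct θ|) : Real.log D ≤ Hf a θ := by
  refine le_trans (Real.log_le_log hD ?_) (log_le_Hf ha h)
  rw [abs_mul, abs_of_pos ha] at hb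
  linarith

theorem measurable_ct : Measurable ct := by
  unfold ct
  fun_prop

theorem measurable_Hf (a : ℝ) : Measurable (Hf a) := by
  unfold Hf
  fun_prop

/-- the set of the large shifts -/
def Es (a δ T : ℝ) : Set ℝ := {θ | δ * T < |a * ct θ|}

theorem measurable_Es (a δ T : ℝ) : MeasurableSet (Es a δ T) := by
  apply measurableSet_lt measurable_const
  exact (measurable_const.mul measurable_ct).abs

theorem tendsto_Es (a δ : ℝ) (ha : 0 < a) (hδ : 0 < δ) :
    Tendsto (fun T : ℝ => ∫ θ in Set.Ioc 0 (2 * Real.pi), (Es a δ T).indicator (Hf a) θ) atTop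
      (𝓝 0) := by
  have h := tendsto_integral_filter_of_dominated_convergence
    (μ := volume.restrict (Set.Ioc 0 (2 * Real.pi))) (l := (atTop : Filter ℝ))
    (F := fun T θ => (Es a δ T).indicator (Hf a) θ) (f := fun _ => (0 : ℝ)) (bound := Hf a)
    (Eventually.of_forall fun T =>
      ((measurable_Hf a).indicator (measurable_Es a δ T)).aestronglyMeasurable)
    (Eventually.of_forall fun T => Eventually.of_forall fun θ => by
      rw [Real.norm_eq_abs]
      by_cases hθ : θ ∈ Es a δ T
      · rw [Set.indicator_of_mem hθ, abs_of_nonneg (Hf_nonneg ha)]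
      · rw [Set.indicator_of_notMem hθ, abs_zero]
        exact Hf_nonneg ha)
    (((intervalIntegrable_iff_integrableOn_Ioc_of_le (by positivity)).1 (Hf_int a)))
    (Eventually.of_forall fun θ => by
      apply tendsto_const_nhds.congr'
      filter_upwards [eventually_ge_atTop (|a * ct θ| / δ)] with T hT
      rw [Set.indicator_of_notMem]
      intro h
      have h1 : δ * T < |a * ct θ| := h
      rw [div_le_iff₀ hδ] at hT
      linarith)
  simpa using h

/-- **Package SI.** -/
theorem int : S_int := by
  intro a α β δ κ B ha hα hαβ hδ hκ hB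
  have hpi := Real.pi_pos
  have hβ : 0 < β := hα.trans hαβ
  have e1 := (tendsto_Es a δ ha hδ).eventually (gt_mem_nhds
    (show (0 : ℝ) < κ / ((β - α) * (7 * B) + 1) by
      have : 0 < β - α := by linarith
      positivity))
  have e2 : ∀ᶠ T : ℝ in atTop, 2 + β * T ≤ T ^ 2 := by
    filter_upwards [eventually_ge_atTop (β + 2), eventually_ge_atTop (1 : ℝ)] with T h1 h2
    nlinarith
  have e3 : ∀ᶠ T : ℝ in atTop, T ≤ (δ * T) ^ 2 := by
    filter_upwards [eventually_ge_atTop (1 / δ ^ 2), eventually_ge_atTop (1 : ℝ)] with T h1 h2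
    rw [div_le_iff₀ (by positivity)] at h1
    nlinarith
  filter_upwards [e1, e2, e3, eventually_ge_atTop (1 : ℝ)] with T hE hT2 hT3 hT1
  intro g hg hg0 hgb
  have hT0 : 0 < T := by linarith
  have hαT : α * T ≤ β * T := mul_le_mul_of_nonneg_right hαβ.le hT0.le
  have hlogT : 0 ≤ Real.log T := Real.log_nonneg hT1
  have hlog2 : Real.log (2 + β * T) ≤ 2 * Real.log T := by
    rw [← Real.log_rpow hT0]
    refine Real.log_le_log (by positivity) ?_
    rw [Real.rpow_two]
    exact hT2
  have hlog3 : Real.log T ≤ 2 * Real.log (δ * T) := by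
    rw [← Real.log_rpow (by positivity)]
    refine Real.log_le_log (by positivity) ?_
    rw [Real.rpow_two]
    exact hT3
  -- the pointwise bound
  have hpt : ∀ t ∈ Set.Ioc (α * T) (β * T), ∀ θ ∈ Set.Ioc (0 : ℝ) (2 * Real.pi),
      g (t + a * ct θ) ≤ B * (3 * Real.log T + Hf a θ) := by
    intro t ht θ hθ
    refine (hgb _).trans (mul_le_mul_of_nonneg_left ?_ hB)
    have ht0 : 0 < t := lt_trans (by positivity) ht.1
    have h1 : 2 + |t + a * ct θ| ≤ (2 + β * T) * (1 + a * |ct θ|) := by
      have h2 : |t + a * ct θ| ≤ β * T + a * |ct θ| := by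
        refine (abs_add_le _ _).trans ?_
        rw [abs_mul, abs_of_pos ha, abs_of_pos ht0]
        linarith [ht.2]
      have h3 : 0 ≤ a * |ct θ| := by positivity
      have h4 : 0 ≤ β * T * (a * |ct θ|) := by positivity
      nlinarith
    have h2 := Real.log_le_log (by positivity) h1
    rw [Real.log_mul (by positivity) (by positivity)] at h2
    have h3 := log_le_Hf ha hθ
    linarith
  -- the integrable function on the product
  let I := Set.Ioc (α * T) (β * T)
  let J := Set.Ioc (0 : ℝ) (2 * Real.pi)
  let f : ℝ × ℝ → ℝ := fun z => g (z.1 + a * ct z.2)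
  have hHJ : Integrable (Hf a) (volume.restrict J) :=
    (intervalIntegrable_iff_integrableOn_Ioc_of_le (by positivity)).1 (Hf_int a)
  have hfint : Integrable f ((volume.restrict I).prod (volume.restrict J)) := by
    have hK : Integrable (fun z : ℝ × ℝ => (1 : ℝ) * (B * (3 * Real.log T + Hf a z.2)))
        ((volume.restrict I).prod (volume.restrict J)) := by
      refine Integrable.mul_prod (f := fun _ : ℝ => (1 : ℝ))
        (g := fun θ => B * (3 * Real.log T + Hf a θ)) (integrable_const _) ?_
      exact ((integrable_const _).add hHJ).const_mul B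
    refine hK.mono' ?_ ?_
    · refine (hg.measurable.comp ?_).aestronglyMeasurable
      exact measurable_fst.add (measurable_const.mul (measurable_ct.comp measurable_snd))
    · rw [Measure.prod_restrict, ae_restrict_iff' (measurableSet_Ioc.prod measurableSet_Ioc)]
      refine Eventually.of_forall fun z hz => ?_
      rw [Real.norm_eq_abs, abs_of_nonneg (hg0 _), one_mul]
      exact hpt z.1 hz.1 z.2 hz.2
  have hinner : ∀ t, (2 * Real.pi)⁻¹ * ∫ θ in (0 : ℝ)..2 * Real.pi, g (t + a * ct θ) =
      (2 * Real.pi)⁻¹ * ∫ θ in J, f (t, θ) := by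
    intro t
    rw [intervalIntegral.integral_of_le (by positivity)]
  simp only [hinner]
  have hI1 : Integrable (fun t => ∫ θ in J, f (t, θ)) (volume.restrict I) :=
    hfint.integral_prod_left
  refine ⟨(intervalIntegrable_iff_integrableOn_Ioc_of_le hαT).2 (hI1.const_mul _), ?_⟩
  rw [intervalIntegral.integral_of_le hαT, integral_const_mul,
    integral_integral_swap (f := fun t θ => f (t, θ)) hfint]
  set M := ∫ x in ((α - δ) * T)..((β + δ) * T), g x with hM
  have hle : (α - δ) * T ≤ (β + δ) * T := mul_le_mul_of_nonneg_right (by linarith) hT0.le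
  have hM0 : 0 ≤ M := intervalIntegral.integral_nonneg hle fun x _ => hg0 x
  have hJ : ∀ θ ∈ J, ∫ t in I, f (t, θ) ≤
      M + (β - α) * T * (7 * B) * (Es a δ T).indicator (Hf a) θ := by
    intro θ hθ
    have hβα : 0 < β - α := by linarith
    by_cases hE' : θ ∈ Es a δ T
    · rw [Set.indicator_of_mem hE']
      have h1 : Real.log (δ * T) ≤ Hf a θ := big_Hf ha (by positivity) hθ hE'
      have h2 : ∫ t in I, f (t, θ) ≤ ∫ _t in I, (7 * B) * Hf a θ := by
        refine setIntegral_mono_on ?_ (integrable_const _) measurableSet_Ioc ?_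
        · have hc : Continuous fun t => g (t + a * ct θ) := hg.comp (continuous_add_const _)
          exact (intervalIntegrable_iff_integrableOn_Ioc_of_le hαT).1 (hc.intervalIntegrable _ _)
        · intro t ht
          refine (hpt t ht θ hθ).trans ?_
          have : B * (3 * Real.log T + Hf a θ) ≤ B * (7 * Hf a θ) :=
            mul_le_mul_of_nonneg_left (by linarith) hB
          linarith
      rw [setIntegral_const, smul_eq_mul] at h2
      have h3 : volume.real I = (β - α) * T := by
        rw [Measure.real, Real.volume_Ioc, ENNReal.toReal_ofReal (by linarith)]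
        ring
      rw [h3] at h2
      have : (β - α) * T * (7 * B * Hf a θ) = (β - α) * T * (7 * B) * Hf a θ := by ring
      linarith
    · rw [Set.indicator_of_notMem hE', mul_zero, add_zero]
      have h1 : |a * ct θ| ≤ δ * T := not_lt.1 hE'
      have h2 : ∫ t in I, f (t, θ) = ∫ x in (α * T + a * ct θ)..(β * T + a * ct θ), g x := by
        rw [← intervalIntegral.integral_comp_add_right (fun x => g x),
          intervalIntegral.integral_of_le hαT]
      rw [h2, hM]
      have h3 := abs_le.1 h1
      refine intervalIntegral.integral_mono_interval (by linarith) (by linarith) (by linarith)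
        (Eventually.of_forall hg0) (hg.intervalIntegrable _ _)
  have hind : Integrable ((Es a δ T).indicator (Hf a)) (volume.restrict J) :=
    hHJ.indicator (measurable_Es a δ T)
  have hfin : ∫ θ in J, ∫ t in I, f (t, θ) ≤
      ∫ θ in J, (M + (β - α) * T * (7 * B) * (Es a δ T).indicator (Hf a) θ) := by
    refine setIntegral_mono_on hfint.integral_prod_right ?_ measurableSet_Ioc hJ
    exact (integrable_const _).add (hind.const_mul _)
  rw [integral_add (integrable_const _) (hind.const_mul _), setIntegral_const, integral_const_mul,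
    smul_eq_mul] at hfin
  have hvol : volume.real J = 2 * Real.pi := by
    rw [Measure.real, Real.volume_Ioc, ENNReal.toReal_ofReal (by linarith)]
    ring
  rw [hvol] at hfin
  set X := ∫ θ in J, (Es a δ T).indicator (Hf a) θ with hX
  have hX0 : 0 ≤ X := integral_nonneg fun θ => Set.indicator_nonneg (fun _ _ => Hf_nonneg ha) θ
  have hβα : 0 < β - α := by linarith
  have hXk : (β - α) * (7 * B) * X ≤ κ := by
    have h1 : X < κ / ((β - α) * (7 * B) + 1) := hE
    rw [lt_div_iff₀ (by positivity)] at h1
    nlinarith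
  have h7 : (2 * Real.pi)⁻¹ * ∫ θ in J, ∫ t in I, f (t, θ) ≤
      (2 * Real.pi)⁻¹ * (2 * Real.pi * M + (β - α) * T * (7 * B) * X) :=
    mul_le_mul_of_nonneg_left hfin (by positivity)
  refine h7.trans ?_
  have h8 : (2 * Real.pi)⁻¹ * (2 * Real.pi * M + (β - α) * T * (7 * B) * X) =
      M + (2 * Real.pi)⁻¹ * (T * ((β - α) * (7 * B) * X)) := by
    field_simp
  rw [h8]
  have h9 : (2 * Real.pi)⁻¹ * (T * ((β - α) * (7 * B) * X)) ≤ 1 * (T * κ) := by
    refine mul_le_mul ?_ (mul_le_mul_of_nonneg_left hXk hT0.le) (by positivity) zero_le_one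
    refine inv_le_one_of_one_le₀ ?_
    linarith [Real.pi_gt_three]
  linarith

end

end Pool.Agent.Helper45.PM
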